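import Mathlib
import Pool.Agent.X317.NSE.Poly

/-!
# MP_a0aa5b_al: semigroups with two incomparable elements in `E(S)` are complete intersections
-/

set_option autoImplicit false
set_option linter.all false

namespace Pool.Agent.Results.MP_a0aa5b_al.TwoIncomparable

open Pool.Agent.X317.NSQ Pool.Agent.X317.NSE Finset

/-- The minimal generators of `S`: the nonzero elements that are not the sum of two nonzero elements. -/
def minGens (S : AddSubmonoid ℕ) : Set ℕ :=
  {n | n ∈ S ∧ n ≠ 0 ∧ ∀ a ∈ S, ∀ b ∈ S, a + b = n → a = 0 ∨ b = 0}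

open Classical in
/-- `P_S(x) = (1 - x) ∑_{s ∈ S} x ^ s`. -/
noncomputable def P (S : AddSubmonoid ℕ) : PowerSeries ℤ :=
  (1 - PowerSeries.X) * PowerSeries.mk fun n => if n ∈ S then 1 else 0

/-- `e` is the exponent sequence of `S`: `P_S = ∏_{j ≥ 1} (1 - x ^ j) ^ (e j)`. This is stated modulo
`x ^ (N + 1)` for every `N`, with the factors with negative exponents moved to the left side. -/
def IsExponentSequence (S : AddSubmonoid ℕ) (e : ℕ → ℤ) : Prop :=
  ∀ N n : ℕ, n ≤ N →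
    PowerSeries.coeff n (P S * ∏ j ∈ Icc 1 N, (1 - PowerSeries.X ^ j) ^ (-(e j)).toNat) =
    PowerSeries.coeff n (∏ j ∈ Icc 1 N, (1 - PowerSeries.X ^ j) ^ (e j).toNat)

/-- The set `E(S)`, where `e` is the exponent sequence of `S`. -/
def exponentSet (S : AddSubmonoid ℕ) (e : ℕ → ℤ) : Set ℕ :=
  {d | 2 ≤ d ∧ e d ≠ 0 ∧ d ∉ minGens S}

/-- The map `φ : ℕ^e → S`, `(a_i) ↦ ∑ a_i n_i`, where the `n_i` are the minimal generators. -/
noncomputable def phi (S : AddSubmonoid ℕ) : (↥(minGens S) →₀ ℕ) →ₗ[ℕ] ℕ :=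
  Finsupp.linearCombination ℕ (fun n : ↥(minGens S) => (n : ℕ))

/-- `σ` is a presentation of `S`: the congruence generated by `σ` is the kernel congruence of `φ`. -/
def IsPresentation (S : AddSubmonoid ℕ)
    (σ : Set ((↥(minGens S) →₀ ℕ) × (↥(minGens S) →₀ ℕ))) : Prop :=
  ∀ a b, addConGen (fun x y => (x, y) ∈ σ) a b ↔ phi S a = phi S b

/-- `S` is a complete intersection: some minimal presentation has exactly `e(S) - 1` elements, where
`e(S)` is the number of the minimal generators. -/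
def IsCompleteIntersection (S : AddSubmonoid ℕ) : Prop :=
  ∃ σ : Finset ((↥(minGens S) →₀ ℕ) × (↥(minGens S) →₀ ℕ)), IsPresentation S (σ : Set _) ∧
    (∀ τ : Finset ((↥(minGens S) →₀ ℕ) × (↥(minGens S) →₀ ℕ)), τ ⊂ σ →
      ¬ IsPresentation S (τ : Set _)) ∧ σ.card + 1 = (minGens S).ncard

theorem presH_iff (S : AddSubmonoid ℕ)
    (σ : Set ((↥(minGens S) →₀ ℕ) × (↥(minGens S) →₀ ℕ))) :
    IsPresentation S σ ↔ PresH (lcH (fun x : ↥(minGens S) => (x : ℕ))) σ := Iff.rfl

theorem low {S : AddSubmonoid ℕ} (hfin : (minGens S).Finite) (hne : (minGens S).Nonempty)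
    (τ : Finset ((↥(minGens S) →₀ ℕ) × (↥(minGens S) →₀ ℕ))) (hτ : IsPresentation S (τ : Set _)) :
    (minGens S).ncard ≤ τ.card + 1 := by
  haveI : Fintype ↥(minGens S) := hfin.fintype
  obtain ⟨x0, hx0⟩ := hne
  rw [Set.ncard_eq_toFinset_card', Set.toFinset_card]
  rw [presH_iff] at hτ
  exact lower (fun x : ↥(minGens S) => (x : ℕ)) ⟨x0, hx0⟩ hx0.2.1 τ hτ

theorem exists_pres {S : AddSubmonoid ℕ} (h : CIw S) (hfin : (minGens S).Finite) :
    ∃ σ : Finset ((↥(minGens S) →₀ ℕ) × (↥(minGens S) →₀ ℕ)), IsPresentation S (σ : Set _) ∧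
      σ.card + 1 ≤ (minGens S).ncard := by
  classical
  obtain ⟨I, _, n, hinj, hr, σ, hσ, hc⟩ := h
  have hr' : Set.range n = minGens S := hr
  have hmem : ∀ i, n i ∈ minGens S := fun i => hr' ▸ ⟨i, rfl⟩
  haveI : Fintype ↥(minGens S) := hfin.fintype
  have hbij : Function.Bijective (fun i => (⟨n i, hmem i⟩ : ↥(minGens S))) := by
    constructor
    · intro i j hij
      exact hinj (congrArg Subtype.val hij)
    · rintro ⟨x, hx⟩
      have hx' := hx
      rw [← hr'] at hx'
      obtain ⟨i, hi⟩ := hx'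
      exact ⟨i, Subtype.ext hi⟩
  obtain ⟨e, he⟩ : ∃ e : I ≃ ↥(minGens S), ∀ i, ((e i : ↥(minGens S)) : ℕ) = n i :=
    ⟨Equiv.ofBijective _ hbij, fun i => rfl⟩
  have hcard : Fintype.card ↥(minGens S) = Fintype.card I := Fintype.card_congr e.symm
  obtain ⟨E, hE0⟩ : ∃ E : (I →₀ ℕ) ≃+ (↥(minGens S) →₀ ℕ), ∀ a i, E a (e i) = a i := by
    refine ⟨Finsupp.domCongr e, fun a i => ?_⟩
    show Finsupp.equivMapDomain e a (e i) = a i
    rw [Finsupp.equivMapDomain_apply, e.symm_apply_apply]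
  have hE : ∀ a, lcH (fun x : ↥(minGens S) => (x : ℕ)) (E a) = lcH n a := by
    intro a
    rw [lcH_apply, lcH_apply, ← Equiv.sum_comp e]
    refine Finset.sum_congr rfl fun i _ => ?_
    rw [hE0, he]
  have hp := presH_equiv E _ _ hE hσ
  refine ⟨σ.image (fun z => (E z.1, E z.2)), ?_, ?_⟩
  · rw [presH_iff, Finset.coe_image]
    exact hp
  · have hle : (σ.image (fun z => (E z.1, E z.2))).card ≤ σ.card := Finset.card_image_le
    rw [Set.ncard_eq_toFinset_card', Set.toFinset_card]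
    omega

/-- **Semigroups with exactly two elements in `E(S)`, incomparable for `≤_S`, are complete
intersections.** -/
theorem result (S : AddSubmonoid ℕ) (hS : ((S : Set ℕ)ᶜ).Finite) (e : ℕ → ℤ)
    (he : IsExponentSequence S e) (a b : ℕ) (hab : a ≠ b) (hE : exponentSet S e = {a, b})
    (h1 : ¬ ∃ s ∈ S, b = a + s) (h2 : ¬ ∃ s ∈ S, a = b + s) : IsCompleteIntersection S := by
  obtain ⟨B, hB⟩ := hS.bddAbove
  have hc : ∀ x, B + 1 ≤ x → x ∈ S := by
    intro x hx
    by_contra h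
    have := hB h
    omega
  have hfin : (atoms S).Finite := by
    refine Set.Finite.subset (Set.finite_le_nat (2 * B + 3)) fun x hx => ?_
    by_contra h
    have h' : ¬ x ≤ 2 * B + 3 := h
    rcases hx.2.2 (B + 1) (hc _ le_rfl) (x - (B + 1)) (hc _ (by omega)) (by omega) with h3 | h3
    · omega
    · omega
  have hCI : CIw S := two hc (e := e) he hab hE (fun t ht h => h1 ⟨t, ht, h⟩)
    (fun t ht h => h2 ⟨t, ht, h⟩) hfin
  have hne : (minGens S).Nonempty := by
    by_contra h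
    rw [Set.not_nonempty_iff_eq_empty] at h
    have h3 := mem_closure_atoms S (B + 1) (hc _ le_rfl)
    have h4 : atoms S = ∅ := h
    rw [h4, AddSubmonoid.closure_empty] at h3
    exact absurd h3 (by rw [AddSubmonoid.mem_bot]; omega)
  obtain ⟨σ, hσ, hσc⟩ := exists_pres hCI hfin
  have h3 := low hfin hne σ hσ
  refine ⟨σ, hσ, fun τ hτ hτP => ?_, by omega⟩
  have h4 := low hfin hne τ hτP
  have h5 := Finset.card_lt_card hτ
  omega

end Pool.Agent.Results.MP_a0aa5b_al.TwoIncomparable
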